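import Pool.Agent.W282.DZ.Stm

/-! Hilbert functions of hypersurface sections and of several components. -/

set_option autoImplicit false

namespace Pool.Agent.W563.DZ

open MvPolynomial Module
open Pool.Agent.W282.DZ

/-- polynomials of degree at most `K` -/
noncomputable abbrev DD (n K : ℕ) : Submodule ℂ (MvPolynomial (Fin n) ℂ) :=
  restrictTotalDegree (Fin n) ℂ K

instance levFinite {n : ℕ} (J : Ideal (MvPolynomial (Fin n) ℂ)) (K : ℕ) :
    Module.Finite ℂ (lev J K) := by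
  unfold lev
  infer_instance

lemma mem_lev {n : ℕ} {J : Ideal (MvPolynomial (Fin n) ℂ)} {K : ℕ}
    {x : MvPolynomial (Fin n) ℂ ⧸ J} :
    x ∈ lev J K ↔ ∃ h : MvPolynomial (Fin n) ℂ, h.totalDegree ≤ K ∧ Ideal.Quotient.mk J h = x := by
  unfold lev
  rw [Submodule.mem_map]
  constructor
  · rintro ⟨h, h1, h2⟩
    exact ⟨h, (mem_restrictTotalDegree _ _ _).1 h1, h2⟩
  · rintro ⟨h, h1, h2⟩
    exact ⟨h, (mem_restrictTotalDegree _ _ _).2 h1, h2⟩

/-- rank nullity for the image of a subspace -/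
lemma rank_map {V W : Type} [AddCommGroup V] [Module ℂ V] [AddCommGroup W] [Module ℂ W]
    (φ : V →ₗ[ℂ] W) (S T : Submodule ℂ V) [Module.Finite ℂ S] (hT : T ≤ S)
    (hk : T ≤ LinearMap.ker φ) :
    finrank ℂ (S.map φ) + finrank ℂ T ≤ finrank ℂ S := by
  have h1 := LinearMap.finrank_range_add_finrank_ker (φ.domRestrict S)
  have h2 : LinearMap.range (φ.domRestrict S) = S.map φ := by
    rw [LinearMap.range_domRestrict]
  have h3 : finrank ℂ T ≤ finrank ℂ (LinearMap.ker (φ.domRestrict S)) := by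
    refine LinearMap.finrank_le_finrank_of_injective
      (f := ((Submodule.inclusion hT).codRestrict (LinearMap.ker (φ.domRestrict S)) ?_)) ?_
    · intro x
      rw [LinearMap.mem_ker]
      exact hk x.2
    · intro x y hxy
      have := congrArg (fun z => ((z : S) : V)) (congrArg Subtype.val hxy)
      exact Subtype.ext this
  rw [h2] at h1
  omega

theorem mul : S_MUL := by
  intro n M P f hP hf hM K
  set J := P ⊔ Ideal.span {f} with hJ
  have hPJ : P ≤ J := le_sup_left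
  have hfJ : f ∈ J := Ideal.mem_sup_right (Ideal.mem_span_singleton_self f)
  let φ : (MvPolynomial (Fin n) ℂ ⧸ P) →ₗ[ℂ] (MvPolynomial (Fin n) ℂ ⧸ J) :=
    (Ideal.Quotient.factorₐ ℂ hPJ).toLinearMap
  let μ : (MvPolynomial (Fin n) ℂ ⧸ P) →ₗ[ℂ] (MvPolynomial (Fin n) ℂ ⧸ P) :=
    LinearMap.mulLeft ℂ (Ideal.Quotient.mk P f)
  have hfne : Ideal.Quotient.mk P f ≠ 0 := fun h => hf (Ideal.Quotient.eq_zero_iff_mem.1 h)
  have hμ : Function.Injective μ := fun x y hxy => mul_left_cancel₀ hfne hxy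
  have hmap : (lev P (K + M)).map φ = lev J (K + M) := by
    apply le_antisymm
    · rintro _ ⟨x, hx, rfl⟩
      obtain ⟨h, h1, rfl⟩ := mem_lev.1 hx
      exact mem_lev.2 ⟨h, h1, rfl⟩
    · intro x hx
      obtain ⟨h, h1, rfl⟩ := mem_lev.1 hx
      exact ⟨Ideal.Quotient.mk P h, mem_lev.2 ⟨h, h1, rfl⟩, rfl⟩
  have key := rank_map φ (lev P (K + M)) ((lev P K).map μ) (by
      rintro _ ⟨x, hx, rfl⟩
      obtain ⟨h, h1, rfl⟩ := mem_lev.1 hx
      refine mem_lev.2 ⟨f * h, ?_, ?_⟩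
      · have := totalDegree_mul f h
        omega
      · exact map_mul _ _ _) (by
      rintro _ ⟨x, hx, rfl⟩
      obtain ⟨h, h1, rfl⟩ := mem_lev.1 hx
      rw [LinearMap.mem_ker]
      show Ideal.Quotient.mk J (f * h) = 0
      rw [Ideal.Quotient.eq_zero_iff_mem]
      exact J.mul_mem_right h hfJ)
  rw [hmap, ← (Submodule.equivMapOfInjective μ hμ (lev P K)).finrank_eq] at key
  exact key

theorem sum : S_SUM := by
  classical
  intro n J s hs hanti
  have hg : ∀ Q : s, ∃ g : MvPolynomial (Fin n) ℂ, g ∉ Q.1 ∧ ∀ Q' : s, Q' ≠ Q → g ∈ Q'.1 := by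
    intro Q
    have h1 : ∀ Q' : s, ∃ a : MvPolynomial (Fin n) ℂ, a ∉ Q.1 ∧ (Q' ≠ Q → a ∈ Q'.1) := by
      intro Q'
      by_cases e : Q' = Q
      · refine ⟨1, fun h => (hs Q.1 Q.2).1.ne_top ((Ideal.eq_top_iff_one _).2 h), fun h => absurd e h⟩
      · have : ¬ Q'.1 ≤ Q.1 := fun h => e (Subtype.ext (hanti _ Q'.2 _ Q.2 h))
        obtain ⟨a, ha, ha2⟩ := SetLike.not_le_iff_exists.1 this
        exact ⟨a, ha2, fun _ => ha⟩
    choose a ha ha2 using h1
    refine ⟨∏ Q' : s, a Q', ?_, ?_⟩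
    · refine Finset.prod_induction a (fun x => x ∉ Q.1) ?_ ?_ (fun Q' _ => ha Q')
      · intro x y hx hy h
        rcases (hs Q.1 Q.2).1.mem_or_mem h with h | h
        · exact hx h
        · exact hy h
      · exact fun h => (hs Q.1 Q.2).1.ne_top ((Ideal.eq_top_iff_one _).2 h)
    · intro Q' hQ'
      rw [← Finset.mul_prod_erase Finset.univ a (Finset.mem_univ Q')]
      exact Q'.1.mul_mem_right _ (ha2 Q' hQ')
  choose g hg1 hg2 using hg
  refine ⟨Finset.univ.sup fun Q : s => (g Q).totalDegree, fun K => ?_⟩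
  set c := Finset.univ.sup fun Q : s => (g Q).totalDegree with hc
  let Ψ : (MvPolynomial (Fin n) ℂ ⧸ J) →ₗ[ℂ] (∀ Q : s, MvPolynomial (Fin n) ℂ ⧸ Q.1) :=
    LinearMap.pi fun Q => (Ideal.Quotient.factorₐ ℂ (hs Q.1 Q.2).2).toLinearMap
  let Θ : (∀ Q : s, lev Q.1 K) →ₗ[ℂ] (∀ Q : s, MvPolynomial (Fin n) ℂ ⧸ Q.1) :=
    LinearMap.pi fun Q => (LinearMap.mulLeft ℂ (Ideal.Quotient.mk Q.1 (g Q))) ∘ₗ
      (lev Q.1 K).subtype ∘ₗ (LinearMap.proj Q)
  have hΘ : Function.Injective Θ := by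
    intro x y hxy
    funext Q
    have h1 : Ideal.Quotient.mk Q.1 (g Q) * (x Q : MvPolynomial (Fin n) ℂ ⧸ Q.1)
        = Ideal.Quotient.mk Q.1 (g Q) * (y Q : MvPolynomial (Fin n) ℂ ⧸ Q.1) := congrFun hxy Q
    have := (hs Q.1 Q.2).1
    have h2 : Ideal.Quotient.mk Q.1 (g Q) ≠ 0 := fun h =>
      hg1 Q (Ideal.Quotient.eq_zero_iff_mem.1 h)
    exact Subtype.ext (mul_left_cancel₀ h2 h1)
  have hle : LinearMap.range Θ ≤ (lev J (K + c)).map Ψ := by
    rintro _ ⟨v, rfl⟩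
    have h1 : ∀ Q : s, ∃ h : MvPolynomial (Fin n) ℂ, h.totalDegree ≤ K ∧
        Ideal.Quotient.mk Q.1 h = (v Q : MvPolynomial (Fin n) ℂ ⧸ Q.1) :=
      fun Q => mem_lev.1 (v Q).2
    choose h hh1 hh2 using h1
    refine ⟨Ideal.Quotient.mk J (∑ Q : s, g Q * h Q), mem_lev.2 ⟨_, ?_, rfl⟩, ?_⟩
    · rw [← mem_restrictTotalDegree]
      refine Submodule.sum_mem _ fun Q _ => ?_
      rw [mem_restrictTotalDegree]
      have e1 := totalDegree_mul (g Q) (h Q)
      have e2 : (g Q).totalDegree ≤ c :=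
        Finset.le_sup (f := fun Q : s => (g Q).totalDegree) (Finset.mem_univ Q)
      have e3 := hh1 Q
      omega
    · funext Q
      show Ideal.Quotient.mk Q.1 (∑ Q' : s, g Q' * h Q') = Ideal.Quotient.mk Q.1 (g Q) * (v Q : _)
      rw [← hh2 Q, ← map_mul, Ideal.Quotient.eq]
      rw [← Finset.add_sum_erase Finset.univ _ (Finset.mem_univ Q), add_sub_cancel_left]
      refine Q.1.sum_mem fun Q' hQ' => Q.1.mul_mem_right _ (hg2 Q' Q ?_)
      exact (Finset.ne_of_mem_erase hQ').symm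
  have hfree : ∀ Q : s, Module.Free ℂ (lev Q.1 K) := fun Q => Module.Free.of_divisionRing ℂ _
  have hfin : finrank ℂ (∀ Q : s, lev Q.1 K) = ∑ Q : s, finrank ℂ (lev Q.1 K) :=
    Module.finrank_pi_fintype ℂ
  have h5 : finrank ℂ (LinearMap.range Θ) = ∑ Q : s, hil Q.1 K := by
    rw [LinearMap.finrank_range_of_inj hΘ, hfin]
    rfl
  calc ∑ Q ∈ s, hil Q K = ∑ Q : s, hil Q.1 K := (Finset.sum_coe_sort s fun Q => hil Q K).symm
    _ = finrank ℂ (LinearMap.range Θ) := h5.symm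
    _ ≤ finrank ℂ ((lev J (K + c)).map Ψ) := Submodule.finrank_mono hle
    _ ≤ finrank ℂ (lev J (K + c)) := Submodule.finrank_map_le _ _
    _ = hil J (K + c) := rfl

theorem main : S_MUL ∧ S_SUM := ⟨mul, sum⟩

end Pool.Agent.W563.DZ
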